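import Pool.Agent.Q55.KY.Stm

set_option autoImplicit false

/-!
# Project KY (helper55), job EXC: existence of highest weight elements (helper149)
-/

namespace Pool.Agent.Q149.KY

open Pool.Agent.Q55.KY
open Pool.Agent.Q55.KY.Dat

variable {R I X : Type} [AddCommGroup X]

/-- the potential -/
noncomputable def pot (D : Dat R I X) (M N : ℕ) (u : (ℕ → X) × (ℕ → X)) : ℕ :=
  ∑ k ∈ Finset.range M, D.ell (u.1 k) + ∑ k ∈ Finset.range N, D.ell (u.2 k)

theorem con_hw (D : Dat R I X) (mu lam : X) (M N : ℕ) (hM : D.CryF mu M) (hN : D.CryF lam N) :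
    ∀ n : ℕ, ∀ u ∈ D.TB mu lam M N, pot D M N u ≤ n →
      ∃ v, D.HW mu lam M N v ∧ D.Con mu lam M N v u := by
  intro n
  induction n with
  | zero =>
    intro u hu hn
    by_cases h : D.HW mu lam M N u
    · exact ⟨u, h, Relation.EqvGen.refl u⟩
    · exfalso
      unfold Dat.HW at h
      push Not at h
      obtain ⟨i, u', hu', ht⟩ := h hu
      have hlt : pot D M N u' < pot D M N u := by
        unfold pot
        rcases ht with ⟨_, h1, h2⟩ | ⟨_, h1, h2⟩
        · have := hN.inc i u'.2 hu'.2 u.2 h2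
          rw [h1]
          omega
        · have := hM.inc i u'.1 hu'.1 u.1 h1
          rw [h2]
          omega
      omega
  | succ n ih =>
    intro u hu hn
    by_cases h : D.HW mu lam M N u
    · exact ⟨u, h, Relation.EqvGen.refl u⟩
    · unfold Dat.HW at h
      push Not at h
      obtain ⟨i, u', hu', ht⟩ := h hu
      have hlt : pot D M N u' < pot D M N u := by
        unfold pot
        rcases ht with ⟨_, h1, h2⟩ | ⟨_, h1, h2⟩
        · have := hN.inc i u'.2 hu'.2 u.2 h2
          rw [h1]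
          omega
        · have := hM.inc i u'.1 hu'.1 u.1 h1
          rw [h2]
          omega
      obtain ⟨v, hv, hc⟩ := ih u' hu' (by omega)
      exact ⟨v, hv, Relation.EqvGen.trans _ _ _ hc (Relation.EqvGen.rel _ _ ⟨hu', hu, i, ht⟩)⟩

theorem exc : S_Exc := by
  intro R I X _ _ D hA hO mu lam M N hMp hNp hdom hM hM2 hN hN2 hD v hv
  obtain ⟨u, hu, hc⟩ := con_hw D mu lam M N hM hN _ v hv le_rfl
  have hu1 : u.1 ∈ D.LS mu M := hu.1.1
  have hu2 : u.2 ∈ D.LS lam N := hu.1.2
  have hNz : (N : ℤ) ≠ 0 := by exact_mod_cast hNp.ne'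
  have hMz : (M : ℤ) ≠ 0 := by exact_mod_cast hMp.ne'
  have hNpos : (0 : ℤ) < N := by exact_mod_cast hNp
  have hMpos : (0 : ℤ) < M := by exact_mod_cast hMp
  have key : ∀ i, D.mn i N u.2 = 0 := by
    intro i
    by_contra hne
    have hlt : D.mn i N u.2 < 0 := lt_of_le_of_ne (hN.le0 i _ hu2) hne
    obtain ⟨q', hq', hF⟩ := hN2.pre i _ hu2 hlt
    have hmq := hN.mq i q' hq' _ hF
    have hhq := hN.hq i q' hq' _ hF
    have hphi : D.phi i N q' = D.phi i N u.2 + 1 := by
      unfold Dat.phi
      have : D.H i q' N - D.mn i N q' = (D.H i u.2 N - D.mn i N u.2) + N := by omega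
      rw [this, Int.add_ediv_of_dvd_right (dvd_refl _), Int.ediv_self hNz]
    by_cases hc1 : D.eps i M u.1 ≤ D.phi i N u.2
    · refine hu.2 i (u.1, q') ⟨hu1, hq'⟩ (Or.inl ⟨?_, rfl, hF⟩)
      change D.eps i M u.1 < D.phi i N q'
      omega
    · push Not at hc1
      have hphi0 : 0 ≤ D.phi i N u.2 := by
        unfold Dat.phi
        apply Int.ediv_nonneg
        · have := hN.leh i _ hu2
          omega
        · exact hNpos.le
      have heps : 0 < D.eps i M u.1 := by omega
      have hm1 : D.mn i M u.1 < 0 := by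
        by_contra h0
        have h1 : D.mn i M u.1 = 0 := le_antisymm (hM.le0 i _ hu1) (not_lt.1 h0)
        unfold Dat.eps at heps
        rw [h1] at heps
        simp at heps
      obtain ⟨c', hc', hF'⟩ := hM2.pre i _ hu1 hm1
      have hmc := hM.mq i c' hc' _ hF'
      have heps' : D.eps i M u.1 = D.eps i M c' + 1 := by
        unfold Dat.eps
        have : - D.mn i M u.1 = - D.mn i M c' + M := by omega
        rw [this, Int.add_ediv_of_dvd_right (dvd_refl _), Int.ediv_self hMz]
      refine hu.2 i (c', u.2) ⟨hc', hu2⟩ (Or.inr ⟨?_, hF', rfl⟩)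
      change D.phi i N u.2 ≤ D.eps i M c'
      omega
  have hdom0 : D.Dom (u.2 0) := fun i => hN.fst i _ hu2 (key i)
  have horb : u.2 0 ∈ D.orb lam := hu2.1 0 hNp
  have hell : D.ell (u.2 0) = 0 := (hO.dom _ hdom0).2
  have hle := hO.low lam hdom _ horb
  have heq : lam = u.2 0 := by
    rcases hO.ant _ _ hle with h | h
    · exact h
    · omega
  have hmem : u.2 ∈ D.Dem lam N [] := by
    rw [hD.dem [] (fun l' _ => Nat.zero_le _)]
    refine ⟨hu2, ?_⟩
    rw [← heq]
    exact Relation.ReflTransGen.refl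
  have hbw : u.2 = bw lam N := hmem
  refine ⟨u.1, hu1, ?_, ?_⟩
  · rw [← hbw]
    exact hu
  · rw [← hbw]
    exact hc

end Pool.Agent.Q149.KY
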